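import Pool.Agent.helper79.EPT.Spec

set_option autoImplicit false
set_option linter.unusedVariables false

open scoped Classical

namespace Pool.Agent.EPT

open Finset

theorem SWP (hRS2 : RS2_stmt) : SWP_stmt := by
  intro W₁ u α t s hW hOk hRs
  set S := SP (8 * W₁) t s (2 * s) with hS
  set H := (Icc 1 (2 ^ (2 * s))).filter (fun h : ℕ => h.Coprime (8 * W₁)) with hH
  have hTT : ∀ h f : ℕ, TT (8 * W₁) t α s h f = ∑ p₁ ∈ S, ∑ p₂ ∈ S,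
      (if h ∣ pr α p₁ ∧ (h ∣ pr α p₂ ∧ f ∣ Nat.dist p₁ p₂) then
        1 / ((pr α p₁ : ℝ) * (pr α p₂ : ℝ)) else 0) := by
    intro h f
    unfold TT
    rw [← hS, Finset.sum_filter]
    refine Finset.sum_congr rfl fun p₁ _ => ?_
    rw [Finset.sum_filter]
    by_cases h1 : h ∣ pr α p₁
    · rw [if_pos h1]
      refine Finset.sum_congr rfl fun p₂ _ => ?_
      by_cases h2 : h ∣ pr α p₂ ∧ f ∣ Nat.dist p₁ p₂
      · rw [if_pos h2, if_pos ⟨h1, h2⟩]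
      · rw [if_neg h2, if_neg fun h3 => h2 h3.2]
    · rw [if_neg h1]
      symm
      refine Finset.sum_eq_zero fun p₂ _ => ?_
      rw [if_neg fun h3 => h1 h3.1]
  have hR : ∑ h ∈ H, ∑ f ∈ H, 1 / (f.totient : ℝ) * TT (8 * W₁) t α s h f =
      ∑ p₁ ∈ S, ∑ p₂ ∈ S, ∑ h ∈ H, ∑ f ∈ H, 1 / (f.totient : ℝ) *
        (if h ∣ pr α p₁ ∧ (h ∣ pr α p₂ ∧ f ∣ Nat.dist p₁ p₂) then
        1 / ((pr α p₁ : ℝ) * (pr α p₂ : ℝ)) else 0) := by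
    calc ∑ h ∈ H, ∑ f ∈ H, 1 / (f.totient : ℝ) * TT (8 * W₁) t α s h f
        = ∑ h ∈ H, ∑ f ∈ H, ∑ p₁ ∈ S, ∑ p₂ ∈ S, 1 / (f.totient : ℝ) *
        (if h ∣ pr α p₁ ∧ (h ∣ pr α p₂ ∧ f ∣ Nat.dist p₁ p₂) then
        1 / ((pr α p₁ : ℝ) * (pr α p₂ : ℝ)) else 0) := by
          refine Finset.sum_congr rfl fun h _ => Finset.sum_congr rfl fun f _ => ?_
          rw [hTT, Finset.mul_sum]
          refine Finset.sum_congr rfl fun p₁ _ => ?_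
          rw [Finset.mul_sum]
      _ = ∑ h ∈ H, ∑ p₁ ∈ S, ∑ f ∈ H, ∑ p₂ ∈ S, 1 / (f.totient : ℝ) *
        (if h ∣ pr α p₁ ∧ (h ∣ pr α p₂ ∧ f ∣ Nat.dist p₁ p₂) then
        1 / ((pr α p₁ : ℝ) * (pr α p₂ : ℝ)) else 0) := by
          refine Finset.sum_congr rfl fun h _ => ?_
          rw [Finset.sum_comm]
      _ = ∑ p₁ ∈ S, ∑ h ∈ H, ∑ f ∈ H, ∑ p₂ ∈ S, 1 / (f.totient : ℝ) *
        (if h ∣ pr α p₁ ∧ (h ∣ pr α p₂ ∧ f ∣ Nat.dist p₁ p₂) then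
        1 / ((pr α p₁ : ℝ) * (pr α p₂ : ℝ)) else 0) := by
          rw [Finset.sum_comm]
      _ = ∑ p₁ ∈ S, ∑ h ∈ H, ∑ p₂ ∈ S, ∑ f ∈ H, 1 / (f.totient : ℝ) *
        (if h ∣ pr α p₁ ∧ (h ∣ pr α p₂ ∧ f ∣ Nat.dist p₁ p₂) then
        1 / ((pr α p₁ : ℝ) * (pr α p₂ : ℝ)) else 0) := by
          refine Finset.sum_congr rfl fun p₁ _ => Finset.sum_congr rfl fun h _ => ?_
          rw [Finset.sum_comm]
      _ = _ := by
          refine Finset.sum_congr rfl fun p₁ _ => ?_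
          rw [Finset.sum_comm]
  show ∑ p₁ ∈ S, ∑ p₂ ∈ S.erase p₁,
    ((Nat.gcd (pr α p₁) (pr α p₂)).divisors.card : ℝ) * sw (8 * W₁) (Nat.dist p₁ p₂) / ((pr α p₁ : ℝ) * (pr α p₂ : ℝ)) ≤
  ∑ h ∈ H, ∑ f ∈ H, 1 / (f.totient : ℝ) * TT (8 * W₁) t α s h f
  rw [hR]
  have hnn : ∀ p₁ p₂ h f : ℕ, (0 : ℝ) ≤ 1 / (f.totient : ℝ) *
        (if h ∣ pr α p₁ ∧ (h ∣ pr α p₂ ∧ f ∣ Nat.dist p₁ p₂) then
        1 / ((pr α p₁ : ℝ) * (pr α p₂ : ℝ)) else 0) := by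
    intro p₁ p₂ h f
    refine mul_nonneg (by positivity) ?_
    split_ifs
    · positivity
    · exact le_rfl
  refine Finset.sum_le_sum fun p₁ hp₁ => ?_
  refine le_trans ?_ (Finset.sum_le_sum_of_subset_of_nonneg (Finset.erase_subset p₁ S)
    fun p₂ _ _ => Finset.sum_nonneg fun h _ => Finset.sum_nonneg fun f _ => hnn p₁ p₂ h f)
  refine Finset.sum_le_sum fun p₂ hp₂ => ?_
  have hne : p₂ ≠ p₁ := (Finset.mem_erase.1 hp₂).1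
  have hp₂' : p₂ ∈ S := (Finset.mem_erase.1 hp₂).2
  have m1 : (2 ^ s < p₁ ∧ p₁ ≤ 2 ^ (2 * s)) ∧ p₁.Prime ∧ p₁ % (8 * W₁) = t % (8 * W₁) := by
    have := hp₁
    rw [hS, SP, Finset.mem_filter, Finset.mem_Ioc] at this
    exact this
  have m2 : (2 ^ s < p₂ ∧ p₂ ≤ 2 ^ (2 * s)) ∧ p₂.Prime ∧ p₂ % (8 * W₁) = t % (8 * W₁) := by
    have := hp₂'
    rw [hS, SP, Finset.mem_filter, Finset.mem_Ioc] at this
    exact this
  obtain ⟨a1, a2, a3, a4, a5, a6, a7⟩ := hRS2 W₁ u α t p₁ hW hOk hRs m1.2.2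
  obtain ⟨b1, b2, b3, b4, b5, b6, b7⟩ := hRS2 W₁ u α t p₂ hW hOk hRs m2.2.2
  have hδ : 0 < Nat.dist p₁ p₂ := Nat.dist_pos_of_ne hne.symm
  have hδ2 : Nat.dist p₁ p₂ ≤ 2 ^ (2 * s) := by
    unfold Nat.dist
    omega
  have hP1 : pr α p₁ ≤ 2 ^ (2 * s) := by
    have : pr α p₁ ≤ p₁ - 1 := Nat.div_le_self _ _
    omega
  have hsubF : (Nat.dist p₁ p₂).divisors.filter (fun f => f.Coprime (8 * W₁)) ⊆ H := by
    intro f hf
    rw [Finset.mem_filter, Nat.mem_divisors] at hf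
    rw [hH, Finset.mem_filter, Finset.mem_Icc]
    exact ⟨⟨Nat.pos_of_dvd_of_pos hf.1.1 hδ, (Nat.le_of_dvd hδ hf.1.1).trans hδ2⟩, hf.2⟩
  have hsubH : (Nat.gcd (pr α p₁) (pr α p₂)).divisors ⊆ H := by
    intro h hh
    have h1 : h ∣ pr α p₁ := (Nat.dvd_of_mem_divisors hh).trans (Nat.gcd_dvd_left _ _)
    rw [hH, Finset.mem_filter, Finset.mem_Icc]
    exact ⟨⟨Nat.pos_of_dvd_of_pos h1 a2, (Nat.le_of_dvd a2 h1).trans hP1⟩,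
      Nat.Coprime.coprime_dvd_left h1 a4⟩
  calc ((Nat.gcd (pr α p₁) (pr α p₂)).divisors.card : ℝ) * sw (8 * W₁) (Nat.dist p₁ p₂) / ((pr α p₁ : ℝ) * (pr α p₂ : ℝ))
      = ∑ h ∈ (Nat.gcd (pr α p₁) (pr α p₂)).divisors,
        ∑ f ∈ (Nat.dist p₁ p₂).divisors.filter (fun f => f.Coprime (8 * W₁)),
          1 / (f.totient : ℝ) * (1 / ((pr α p₁ : ℝ) * (pr α p₂ : ℝ))) := by
        rw [Finset.sum_const, nsmul_eq_mul, ← Finset.sum_mul]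
        unfold sw
        ring
    _ = ∑ h ∈ (Nat.gcd (pr α p₁) (pr α p₂)).divisors,
        ∑ f ∈ (Nat.dist p₁ p₂).divisors.filter (fun f => f.Coprime (8 * W₁)),
          1 / (f.totient : ℝ) * (if h ∣ pr α p₁ ∧ (h ∣ pr α p₂ ∧ f ∣ Nat.dist p₁ p₂) then
        1 / ((pr α p₁ : ℝ) * (pr α p₂ : ℝ)) else 0) := by
        refine Finset.sum_congr rfl fun h hh => Finset.sum_congr rfl fun f hf => ?_
        rw [if_pos]
        have h0 := Nat.dvd_of_mem_divisors hh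
        refine ⟨h0.trans (Nat.gcd_dvd_left _ _), h0.trans (Nat.gcd_dvd_right _ _), ?_⟩
        exact Nat.dvd_of_mem_divisors (Finset.mem_filter.1 hf).1
    _ ≤ ∑ h ∈ (Nat.gcd (pr α p₁) (pr α p₂)).divisors, ∑ f ∈ H,
          1 / (f.totient : ℝ) * (if h ∣ pr α p₁ ∧ (h ∣ pr α p₂ ∧ f ∣ Nat.dist p₁ p₂) then
        1 / ((pr α p₁ : ℝ) * (pr α p₂ : ℝ)) else 0) :=
        Finset.sum_le_sum fun h _ =>
          Finset.sum_le_sum_of_subset_of_nonneg hsubF fun f _ _ => hnn p₁ p₂ h f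
    _ ≤ _ := Finset.sum_le_sum_of_subset_of_nonneg hsubH
        fun h _ _ => Finset.sum_nonneg fun f _ => hnn p₁ p₂ h f

end Pool.Agent.EPT
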